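import Pool.Agent.Y806.DF.C

/-!
# Voronoi cells and improper progressions

`form T x y = ⟨T x, T y⟩` is the inner product belonging to the ellipsoid `{x | form T x x ≤ 1}`.
For a subgroup `Λ` of `ℤ^n`, `cell T Λ` is the part of this ellipsoid in the Voronoi cell of `Λ`:
it is convex and symmetric, it contains a representative of every class of integer points of the
ellipsoid modulo `Λ`, and four times smaller it contains no two points of the same class.
-/

set_option autoImplicit false

namespace Q123.VP

open Finset Pool.Agent.Y806.DF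
open scoped Pointwise

variable {n : ℕ}

/-- The inner product of `T x` and `T y`. -/
noncomputable def form (T : (Fin n → ℝ) ≃ₗ[ℝ] (Fin n → ℝ)) (x y : Fin n → ℝ) : ℝ :=
  ∑ k, T x k * T y k

/-- The closed ellipsoid belonging to `T`. -/
def ell (T : (Fin n → ℝ) ≃ₗ[ℝ] (Fin n → ℝ)) : Set (Fin n → ℝ) := {x | form T x x ≤ 1}

/-- The part of the ellipsoid in the Voronoi cell of `Λ`. -/
def cell (T : (Fin n → ℝ) ≃ₗ[ℝ] (Fin n → ℝ)) (Λ : AddSubgroup (Fin n → ℤ)) : Set (Fin n → ℝ) :=
  {x | form T x x ≤ 1 ∧ ∀ v ∈ Λ, 2 * form T x (re v) ≤ form T (re v) (re v)}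

variable (T : (Fin n → ℝ) ≃ₗ[ℝ] (Fin n → ℝ))

theorem form_comm (x y : Fin n → ℝ) : form T x y = form T y x := by
  unfold form
  exact sum_congr rfl fun k _ => mul_comm _ _

theorem form_add_left (x y z : Fin n → ℝ) : form T (x + y) z = form T x z + form T y z := by
  unfold form
  rw [← sum_add_distrib]
  refine sum_congr rfl fun k _ => ?_
  rw [map_add, Pi.add_apply, add_mul]

theorem form_smul_left (c : ℝ) (x z : Fin n → ℝ) : form T (c • x) z = c * form T x z := by
  unfold form
  rw [mul_sum]
  refine sum_congr rfl fun k _ => ?_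
  rw [map_smul, Pi.smul_apply, smul_eq_mul, mul_assoc]

theorem form_add_right (x y z : Fin n → ℝ) : form T x (y + z) = form T x y + form T x z := by
  rw [form_comm, form_add_left, form_comm T y, form_comm T z]

theorem form_smul_right (c : ℝ) (x z : Fin n → ℝ) : form T x (c • z) = c * form T x z := by
  rw [form_comm, form_smul_left, form_comm]

theorem form_neg_left (x z : Fin n → ℝ) : form T (-x) z = - form T x z := by
  have h := form_smul_left T (-1) x z
  rw [neg_one_smul, neg_one_mul] at h
  exact h

theorem form_neg_right (x z : Fin n → ℝ) : form T x (-z) = - form T x z := by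
  rw [form_comm, form_neg_left, form_comm]

theorem form_nonneg (x : Fin n → ℝ) : 0 ≤ form T x x := by
  unfold form
  exact sum_nonneg fun k _ => mul_self_nonneg _

theorem form_eq_zero {x : Fin n → ℝ} (h : form T x x ≤ 0) : x = 0 := by
  have h0 : form T x x = 0 := le_antisymm h (form_nonneg T x)
  unfold form at h0
  rw [sum_eq_zero_iff_of_nonneg (fun k _ => mul_self_nonneg _)] at h0
  have h1 : T x = 0 := by
    funext k
    exact mul_self_eq_zero.1 (h0 k (mem_univ k))
  exact (map_eq_zero_iff T T.injective).1 h1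

theorem form_sub_sub (x y : Fin n → ℝ) :
    form T (x - y) (x - y) = form T x x - 2 * form T x y + form T y y := by
  rw [sub_eq_add_neg, form_add_left, form_add_right, form_add_right, form_neg_right, form_neg_left,
    form_neg_left, form_neg_right, form_comm T y x]
  ring

theorem continuous_form_left (y : Fin n → ℝ) : Continuous fun x => form T x y := by
  unfold form
  refine continuous_finsetSum _ fun k _ => ?_
  exact ((continuous_apply k).comp (LinearMap.continuous_of_finiteDimensional
    (T : (Fin n → ℝ) →ₗ[ℝ] (Fin n → ℝ)))).mul continuous_const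

theorem continuous_form_diag : Continuous fun x => form T x x := by
  unfold form
  refine continuous_finsetSum _ fun k _ => ?_
  have h : Continuous fun x => T x k := (continuous_apply k).comp
    (LinearMap.continuous_of_finiteDimensional (T : (Fin n → ℝ) →ₗ[ℝ] (Fin n → ℝ)))
  exact h.mul h

/-- The convexity inequality for the quadratic form. -/
theorem form_convex {x y : Fin n → ℝ} {a b : ℝ} (ha : 0 ≤ a) (hb : 0 ≤ b) (hab : a + b = 1) :
    form T (a • x + b • y) (a • x + b • y) ≤ a * form T x x + b * form T y y := by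
  have h := form_nonneg T (x - y)
  rw [form_sub_sub] at h
  rw [form_add_left, form_add_right, form_add_right, form_smul_left, form_smul_left,
    form_smul_left, form_smul_left, form_smul_right, form_smul_right, form_smul_right,
    form_smul_right, form_comm T y x]
  have hb' : b = 1 - a := by linarith
  subst hb'
  nlinarith [mul_nonneg ha hb]

theorem ell_convex : Convex ℝ (ell T) := by
  intro x hx y hy a b ha hb hab
  have h := form_convex T (x := x) (y := y) ha hb hab
  have hx' : form T x x ≤ 1 := hx
  have hy' : form T y y ≤ 1 := hy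
  show form T _ _ ≤ 1
  nlinarith

theorem ell_symm {x : Fin n → ℝ} (hx : x ∈ ell T) : -x ∈ ell T := by
  show form T (-x) (-x) ≤ 1
  rw [form_neg_left, form_neg_right, neg_neg]
  exact hx

theorem ell_compact : IsCompact (ell T) := by
  have hcl : IsClosed (ell T) := isClosed_le (continuous_form_diag T) continuous_const
  have hsub : ell T ⊆ T.symm '' (Metric.closedBall (0 : Fin n → ℝ) 1) := by
    intro x hx
    refine ⟨T x, ?_, T.symm_apply_apply x⟩
    rw [mem_closedBall_zero_iff, pi_norm_le_iff_of_nonneg zero_le_one]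
    intro k
    rw [Real.norm_eq_abs, abs_le_one_iff_mul_self_le_one]
    calc T x k * T x k ≤ ∑ j, T x j * T x j :=
          single_le_sum (f := fun j => T x j * T x j) (fun j _ => mul_self_nonneg _) (mem_univ k)
      _ ≤ 1 := hx
  have hK : IsCompact (T.symm '' (Metric.closedBall (0 : Fin n → ℝ) 1)) :=
    (isCompact_closedBall _ _).image (LinearMap.continuous_of_finiteDimensional
      (T.symm : (Fin n → ℝ) →ₗ[ℝ] (Fin n → ℝ)))
  exact hK.of_isClosed_subset hcl hsub

theorem ell_zero : (0 : Fin n → ℝ) ∈ ell T := by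
  show form T 0 0 ≤ 1
  unfold form
  simp

theorem ell_sym : Sym (ell T) where
  conv := ell_convex T
  comp := ell_compact T
  symm := fun _ hx => ell_symm T hx
  ne := ⟨0, ell_zero T⟩

variable (Λ : AddSubgroup (Fin n → ℤ))

theorem cell_subset : cell T Λ ⊆ ell T := fun _ hx => hx.1

theorem cell_convex : Convex ℝ (cell T Λ) := by
  intro x hx y hy a b ha hb hab
  refine ⟨ell_convex T hx.1 hy.1 ha hb hab, fun v hv => ?_⟩
  have h1 := hx.2 v hv
  have h2 := hy.2 v hv
  rw [form_add_left, form_smul_left, form_smul_left]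
  have h3 := mul_le_mul_of_nonneg_left h1 ha
  have h4 := mul_le_mul_of_nonneg_left h2 hb
  have h5 : form T (re v) (re v) = a * form T (re v) (re v) + b * form T (re v) (re v) := by
    rw [← add_mul, hab, one_mul]
  linarith

theorem cell_symm {x : Fin n → ℝ} (hx : x ∈ cell T Λ) : -x ∈ cell T Λ := by
  refine ⟨ell_symm T hx.1, fun v hv => ?_⟩
  have h1 := hx.2 (-v) (Λ.neg_mem hv)
  have e : re (-v) = - re v := re_neg v
  rw [e, form_neg_right, form_neg_right, form_neg_left, neg_neg] at h1
  rw [form_neg_left]
  exact h1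

theorem cell_zero : (0 : Fin n → ℝ) ∈ cell T Λ := by
  refine ⟨ell_zero T, fun v _ => ?_⟩
  have h : form T 0 (re v) = 0 := by
    unfold form
    simp
  rw [h, mul_zero]
  exact form_nonneg T _

theorem cell_closed : IsClosed (cell T Λ) := by
  have h : cell T Λ = ell T ∩ ⋂ v ∈ Λ, {x | 2 * form T x (re v) ≤ form T (re v) (re v)} := by
    ext x
    simp only [cell, ell, Set.mem_ofPred_eq, Set.mem_inter_iff, Set.mem_iInter]
  rw [h]
  refine (ell_compact T).isClosed.inter (isClosed_biInter fun v _ => ?_)
  exact isClosed_le (continuous_const.mul (continuous_form_left T _)) continuous_const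

theorem cell_sym : Sym (cell T Λ) where
  conv := cell_convex T Λ
  comp := (ell_compact T).of_isClosed_subset (cell_closed T Λ) (cell_subset T Λ)
  symm := fun _ hx => cell_symm T Λ hx
  ne := ⟨0, cell_zero T Λ⟩

/-- Reduction modulo `Λ`. -/
theorem exists_reduced {x : Fin n → ℤ} (hx : x ∈ lat (ell T)) :
    ∃ y ∈ lat (cell T Λ), x - y ∈ Λ := by
  have hfin : (lat (ell T)).Finite := lat_finite (ell_compact T).isBounded
  have hS : {y : Fin n → ℤ | y ∈ lat (ell T) ∧ x - y ∈ Λ}.Finite :=
    hfin.subset fun y hy => hy.1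
  obtain ⟨y, hy, hmin⟩ := Set.exists_min_image _ (fun y => form T (re y) (re y)) hS
    ⟨x, hx, by rw [sub_self]; exact Λ.zero_mem⟩
  refine ⟨y, ⟨hy.1, fun v hv => ?_⟩, hy.2⟩
  have hy1 : form T (re y) (re y) ≤ 1 := hy.1
  by_contra hcon
  push Not at hcon
  have hlt : form T (re (y - v)) (re (y - v)) < form T (re y) (re y) := by
    rw [re_sub, form_sub_sub]
    linarith
  have hmem : y - v ∈ lat (ell T) := by
    show form T (re (y - v)) (re (y - v)) ≤ 1
    linarith
  have h2 : x - (y - v) ∈ Λ := by
    have e : x - (y - v) = (x - y) + v := by abel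
    rw [e]
    exact Λ.add_mem hy.2 hv
  exact absurd (hmin (y - v) ⟨hmem, h2⟩) (not_le.2 hlt)

/-- Properness: the cell shrunk by a factor two contains no nonzero point of `Λ`. -/
theorem eq_zero_of_half {v : Fin n → ℤ} (hv : v ∈ Λ) (h : v ∈ lat ((1 / 2 : ℝ) • cell T Λ)) :
    v = 0 := by
  obtain ⟨x, hx, hxv⟩ := h
  have hxv' : (1 / 2 : ℝ) • x = re v := hxv
  have hx2 : x = (2 : ℝ) • re v := by
    rw [← hxv', smul_smul]
    norm_num
  have h1 := hx.2 v hv
  rw [hx2, form_smul_left] at h1
  have h2 := form_nonneg T (re v)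
  have h3 : re v = 0 := form_eq_zero T (by linarith)
  funext i
  have h4 := congrFun h3 i
  have h5 : ((v i : ℤ) : ℝ) = 0 := h4
  exact_mod_cast h5

theorem eq_of_quarter {t : ℝ} (ht : 0 ≤ t) (ht4 : t ≤ 1 / 4) {x y : Fin n → ℤ}
    (hx : x ∈ lat (t • cell T Λ)) (hy : y ∈ lat (t • cell T Λ)) (hxy : x - y ∈ Λ) : x = y := by
  have h1 : x - y ∈ lat ((t + t) • cell T Λ) := (cell_sym T Λ).sub ht ht hx hy
  have h2 : x - y ∈ lat ((1 / 2 : ℝ) • cell T Λ) :=
    lat_mono ((cell_sym T Λ).mono (by positivity) (by linarith)) h1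
  exact sub_eq_zero.1 (eq_zero_of_half T Λ hxy h2)

end Q123.VP
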