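import Pool.Agent.Q123.VP.G
import Pool.Agent.Q123.DS.Coset

/-!
# Homomorphic images of solid sets
-/

set_option autoImplicit false

namespace Q123.VP

open Finset Pool.Agent.Y806.DF
open scoped Pointwise

theorem Conc.mono {Γ : Type*} [AddCommGroup Γ] {A : Finset Γ} {L L' : ℝ} (h : Conc A L)
    (h0 : 0 < L) (hL : L ≤ L') : Conc A L' := by
  obtain ⟨r, B, θ, H', F, h1, h2, h3, h4, h5, h6⟩ := h
  refine ⟨r, B, θ, H', F, ?_, h2, h3, h4, ?_, h6⟩
  · have h7 : Real.log (2 * L) ≤ Real.log (2 * L') := Real.log_le_log (by linarith) (by linarith)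
    linarith
  · have h8 : L ^ 5000 ≤ L' ^ 5000 := pow_le_pow_left₀ h0.le hL 5000
    linarith

theorem bx_ncard {r : ℕ} (L : Fin r → ℕ) : (bx L).ncard = ∏ j, (2 * L j + 1) := by
  classical
  have h : bx L = ((Fintype.piFinset fun j => Icc (-(L j : ℤ)) (L j) : Finset (Fin r → ℤ)) :
      Set (Fin r → ℤ)) := by
    ext x
    simp only [bx, Set.mem_ofPred_eq, mem_coe, Fintype.mem_piFinset, mem_Icc, abs_le]
  rw [h, Set.ncard_coe_finset, Fintype.card_piFinset]
  refine prod_congr rfl fun j _ => ?_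
  rw [Int.card_Icc]
  omega

variable {ι : Type*} [Fintype ι] [DecidableEq ι]

/-- **Q1 for all homomorphic images of solid sets.** -/
theorem solid_image {Γ : Type*} [AddCommGroup Γ] [DecidableEq Γ] (φ : (ι → ℤ) →+ Γ)
    {D : Finset (ι → ℤ)} (hD : Q123.DS.Solid D) (hne : D.Nonempty) {K : ℝ}
    (hK : ((D + D).card : ℝ) ≤ K * D.card) : Conc (D.image φ) ((2 * K) ^ 45) := by
  classical
  obtain ⟨n, T, h1, h2, h3, h4⟩ := Q123.DS.cover hD hne hK
  have hK1 := Q123.DS.one_le_of_card_add hD hne hK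
  have hDr : (0 : ℝ) < D.card := by exact_mod_cast hne.card_pos
  set I := univ.filter fun i => n i ≠ 0 with hI
  set e : Fin I.card → ι := fun j => (I.equivFin.symm j : ι) with he
  have heinj : Function.Injective e := fun j k h => I.equivFin.symm.injective (Subtype.ext h)
  have hsurj : ∀ i, n i ≠ 0 → ∃ j, e j = i := by
    intro i hi
    have hiI : i ∈ I := by simp [hI, hi]
    refine ⟨I.equivFin ⟨i, hiI⟩, ?_⟩
    simp [he]
  set L : Fin I.card → ℕ := fun j => n (e j) with hL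
  have hprod : ∏ j, (2 * L j + 1) ≤ D.card := by
    refine le_trans (le_of_eq ?_) h2
    have h5 : ∏ i, (2 * n i + 1) = ∏ i ∈ I, (2 * n i + 1) := by
      symm
      apply prod_subset (subset_univ _)
      intro i _ hi
      have : n i = 0 := by
        by_contra h
        exact hi (by simp [hI, h])
      rw [this, mul_zero, zero_add]
    rw [h5, ← prod_coe_sort I fun i => 2 * n i + 1]
    exact Fintype.prod_equiv I.equivFin.symm _ _ fun j => rfl
  have hP : ((img (Q123.DS.ext e) ⊥ (bx L)).ncard : ℝ) ≤ (1024 * K ^ 10) * D.card := by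
    have h5 : img (Q123.DS.ext e) ⊥ (bx L) ⊆ Q123.DS.ext e '' bx L := by
      rintro g ⟨x, hx, h, hh, rfl⟩
      rw [AddSubgroup.mem_bot] at hh
      subst hh
      exact ⟨x, hx, (add_zero _).symm⟩
    have h6 := (Set.ncard_le_ncard h5 ((bx_finite L).image _)).trans
      (Set.ncard_image_le (bx_finite L))
    rw [bx_ncard] at h6
    have h7 : ((img (Q123.DS.ext e) ⊥ (bx L)).ncard : ℝ) ≤ D.card := by
      exact_mod_cast h6.trans hprod
    have h8 : (1 : ℝ) ≤ 1024 * K ^ 10 := by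
      have := one_le_pow₀ hK1 (n := 10)
      linarith
    nlinarith
  have hpig := pigeon T D D hne (fun t a => ∀ i, |a i - t i| ≤ n i) Subset.rfl h4
  obtain ⟨t, ht, hc⟩ := hpig
  have hmeet : (D.card : ℝ) ≤ (1024 * K ^ 10) *
      ({a : ι → ℤ | a ∈ D ∧ a - t ∈ img (Q123.DS.ext e) ⊥ (bx L)}.ncard : ℝ) := by
    have h5 : ((D.filter fun a => ∀ i, |a i - t i| ≤ n i : Finset (ι → ℤ)) : Set (ι → ℤ)) ⊆
        {a : ι → ℤ | a ∈ D ∧ a - t ∈ img (Q123.DS.ext e) ⊥ (bx L)} := by
      intro a ha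
      rw [mem_coe, mem_filter] at ha
      refine ⟨ha.1, fun j => (a - t) (e j), fun j => ha.2 (e j), 0, AddSubgroup.zero_mem _, ?_⟩
      rw [add_zero]
      funext i
      by_cases hi : ∃ j, e j = i
      · obtain ⟨j, rfl⟩ := hi
        rw [Q123.DS.ext_apply heinj]
      · rw [Q123.DS.ext_apply_of_notMem]
        · have h6 : n i = 0 := by
            by_contra h
            exact hi (hsurj i h)
          have h7 := ha.2 i
          rw [h6, Nat.cast_zero] at h7
          exact abs_nonpos_iff.1 h7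
        · intro j hj
          exact hi ⟨j, hj⟩
    have h6 := Set.ncard_le_ncard h5 (D.finite_toSet.subset fun a ha => ha.1)
    rw [Set.ncard_coe_finset] at h6
    have h7 : (D.card : ℝ) ≤ T.card * ((D.filter fun a => ∀ i, |a i - t i| ≤ n i).card : ℝ) := by
      exact_mod_cast hc
    have h8 : ((D.filter fun a => ∀ i, |a i - t i| ≤ n i).card : ℝ) ≤
      ({a : ι → ℤ | a ∈ D ∧ a - t ∈ img (Q123.DS.ext e) ⊥ (bx L)}.ncard : ℝ) := by exact_mod_cast h6
    exact h7.trans (mul_le_mul h3 h8 (Nat.cast_nonneg _) (by positivity))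
  have hmain := conc_image φ hne hK L (Q123.DS.ext e) ⊥ hP t hmeet
  refine hmain.mono (by positivity) ?_
  have h9 : (393216 : ℝ) ^ I.card ≤ (2 * K) ^ 19 := by
    calc (393216 : ℝ) ^ I.card ≤ (2 ^ 19) ^ I.card := pow_le_pow_left₀ (by norm_num) (by norm_num) _
      _ = (2 ^ I.card) ^ 19 := by rw [← pow_mul, ← pow_mul, mul_comm]
      _ ≤ (2 * K) ^ 19 := pow_le_pow_left₀ (by positivity) h1 19
  calc (393216 : ℝ) ^ I.card * (1024 * K ^ 10) ^ 2 * K ^ 6
      ≤ (2 * K) ^ 19 * (1024 * K ^ 10) ^ 2 * K ^ 6 := by gcongr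
    _ = 2 ^ 39 * K ^ 45 := by ring
    _ ≤ 2 ^ 45 * K ^ 45 := by gcongr <;> norm_num
    _ = (2 * K) ^ 45 := by ring

end Q123.VP
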