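import Pool.Agent.Q123.VP.D

/-!
# Improper generalised arithmetic progressions
-/

set_option autoImplicit false

namespace Q123.VP

open Finset Pool.Agent.Y806.DF
open scoped Pointwise

variable {n : ℕ} {Γ : Type*} [AddCommGroup Γ]

variable (L : Fin n → ℕ) (ψ : (Fin n → ℤ) →+ Γ) (H : AddSubgroup Γ)

/-- A set covered by translates of `img ψ H S` is not much larger. -/
theorem ncard_le_translates [Finite H] {S S' : Set (Fin n → ℤ)} (hS' : S'.Finite)
    (F : Finset (Fin n → ℤ)) (h : ∀ x ∈ S, ∃ f ∈ F, ∃ w ∈ S', x = f + w) :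
    (img ψ H S).ncard ≤ F.card * (img ψ H S').ncard := by
  have hfin := img_finite ψ H hS'
  have h1 : img ψ H S ⊆ ⋃ f ∈ F, (fun g => ψ f + g) '' img ψ H S' := by
    rintro g ⟨x, hx, k, hk, rfl⟩
    obtain ⟨f, hf, w, hw, rfl⟩ := h x hx
    simp only [Set.mem_iUnion]
    refine ⟨f, hf, ψ w + k, ⟨w, hw, k, hk, rfl⟩, ?_⟩
    show ψ f + (ψ w + k) = ψ (f + w) + k
    rw [map_add, add_assoc]
  have h2 : (⋃ f ∈ F, (fun g => ψ f + g) '' img ψ H S').ncard ≤
      ∑ f ∈ F, ((fun g => ψ f + g) '' img ψ H S').ncard := Finset.set_ncard_biUnion_le _ _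
  have h3 : ∀ f ∈ F, ((fun g => ψ f + g) '' img ψ H S').ncard = (img ψ H S').ncard := fun f _ =>
    Set.ncard_image_of_injective _ (add_right_injective _)
  rw [sum_congr rfl h3, sum_const, smul_eq_mul] at h2
  refine (Set.ncard_le_ncard h1 ?_).trans h2
  exact F.finite_toSet.biUnion fun f _ => hfin.image _

theorem pc_le [Finite H] : pc (bT L) ψ H ≤ 12 ^ n * (img ψ H (bx L)).ncard := by
  obtain ⟨F, hF, hcov⟩ := ell_subset L
  exact (ncard_le_translates ψ H (bx_finite L) F hcov).trans (Nat.mul_le_mul_right _ hF)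

/-- **Properness for free, boxes.** -/
theorem box_cover [Finite H] {N : ℝ} (hN : (Nat.card H : ℝ) ≤ N) :
    ∃ (B : Set (Fin n → ℝ)) (F : Finset Γ), Body B ∧
      Set.InjOn (fun p : (Fin n → ℤ) × Γ => ψ p.1 + p.2) (lat B ×ˢ (H : Set Γ)) ∧
      ((lat B).ncard : ℝ) * Nat.card H ≤ N ∧
      (F.card : ℝ) ≤ 196608 ^ n * max 1 ((img ψ H (bx L)).ncard / N) ∧
      ∀ g ∈ img ψ H (bx L), ∃ f ∈ F, ∃ w ∈ lat B, ∃ h ∈ H, g = f + ψ w + h := by
  classical
  have hHpos : (0 : ℝ) < Nat.card H := by exact_mod_cast Nat.card_pos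
  have hNpos : 0 < N := lt_of_lt_of_le hHpos hN
  obtain ⟨t, F, h1, h2, h3, h4, h5⟩ := ell_cover (bT L) ψ H hN
  obtain ⟨B, hB, hBl⟩ := fatten ((kcell_sym (bT L) ψ H).smul t)
  refine ⟨B, F.image ψ, hB, ?_, ?_, ?_, ?_⟩
  · rw [hBl]
    exact proper (bT L) ψ H h1.le h2
  · rw [hBl]
    exact h3
  · have h6 : ((F.image ψ).card : ℝ) ≤ F.card := by exact_mod_cast card_image_le
    refine h6.trans (h4.trans ?_)
    have h7 : (pc (bT L) ψ H : ℝ) ≤ 12 ^ n * (img ψ H (bx L)).ncard := by exact_mod_cast pc_le L ψ H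
    have h8 : max 1 (16 ^ n * (pc (bT L) ψ H : ℝ) / N) ≤
        192 ^ n * max 1 ((img ψ H (bx L)).ncard / N) := by
      refine max_le ?_ ?_
      · have h9 : (1 : ℝ) ≤ 192 ^ n := one_le_pow₀ (by norm_num)
        calc (1 : ℝ) = 1 * 1 := (one_mul 1).symm
          _ ≤ _ := mul_le_mul h9 (le_max_left _ _) zero_le_one (by positivity)
      · calc 16 ^ n * (pc (bT L) ψ H : ℝ) / N
            ≤ 16 ^ n * (12 ^ n * (img ψ H (bx L)).ncard) / N := by gcongr
          _ = 192 ^ n * ((img ψ H (bx L)).ncard / N) := by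
            rw [← mul_assoc, ← mul_pow, mul_div_assoc]
            norm_num
          _ ≤ _ := mul_le_mul_of_nonneg_left (le_max_right _ _) (by positivity)
    calc (1024 : ℝ) ^ n * max 1 (16 ^ n * (pc (bT L) ψ H : ℝ) / N)
        ≤ 1024 ^ n * (192 ^ n * max 1 ((img ψ H (bx L)).ncard / N)) :=
          mul_le_mul_of_nonneg_left h8 (by positivity)
      _ = 196608 ^ n * max 1 ((img ψ H (bx L)).ncard / N) := by
        rw [← mul_assoc, ← mul_pow]
        norm_num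
  · intro g hg
    obtain ⟨f, hf, w, hw, h, hh, e⟩ := h5 g (img_mono ψ H (bx_subset L) hg)
    refine ⟨ψ f, mem_image_of_mem _ hf, w, ?_, h, hh, e⟩
    rw [hBl]
    exact hw

theorem one_le_M {Γ : Type*} {A : Finset Γ} (hA : A.Nonempty) {M : ℝ} (p : Γ → Prop)
    (h : (A.card : ℝ) ≤ M * ({a : Γ | a ∈ A ∧ p a}.ncard : ℝ)) : 1 ≤ M := by
  have hAr : (0 : ℝ) < A.card := by exact_mod_cast hA.card_pos
  by_contra hcon
  push Not at hcon
  have hSA : {a : Γ | a ∈ A ∧ p a} ⊆ (A : Set Γ) := fun a ha => ha.1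
  have hSle : ({a : Γ | a ∈ A ∧ p a}.ncard : ℝ) ≤ A.card := by
    have := Set.ncard_le_ncard hSA A.finite_toSet
    rw [Set.ncard_coe_finset] at this
    exact_mod_cast this
  have hS0 : (0 : ℝ) ≤ {a : Γ | a ∈ A ∧ p a}.ncard := Nat.cast_nonneg _
  rcases le_or_gt M 0 with h' | h'
  · nlinarith [mul_nonpos_of_nonpos_of_nonneg h' hS0]
  · nlinarith [mul_le_mul_of_nonneg_left hSle h'.le]

/-- **Q1 for sets commensurable with an improper progression.** -/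
theorem conc_box [DecidableEq Γ] [Finite H] {K M : ℝ} {A : Finset Γ} (hA : A.Nonempty)
    (hK : ((A + A).card : ℝ) ≤ K * A.card) (hP : ((img ψ H (bx L)).ncard : ℝ) ≤ M * A.card) (g : Γ)
    (hmeet : (A.card : ℝ) ≤ M * ({a : Γ | a ∈ A ∧ a - g ∈ img ψ H (bx L)}.ncard : ℝ)) :
    Conc A (196608 ^ n * M * K) := by
  have hM1 := one_le_M hA _ hmeet
  have h12 : (1 : ℝ) ≤ 12 ^ n := one_le_pow₀ (by norm_num)
  have h1 : (pc (bT L) ψ H : ℝ) ≤ (12 ^ n * M) * A.card := by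
    have h7 : (pc (bT L) ψ H : ℝ) ≤ 12 ^ n * (img ψ H (bx L)).ncard := by exact_mod_cast pc_le L ψ H
    calc (pc (bT L) ψ H : ℝ) ≤ 12 ^ n * (img ψ H (bx L)).ncard := h7
      _ ≤ 12 ^ n * (M * A.card) := mul_le_mul_of_nonneg_left hP (by positivity)
      _ = _ := by ring
  have h2 : (A.card : ℝ) ≤ (12 ^ n * M) *
      ({a : Γ | a ∈ A ∧ a - g ∈ img ψ H (lat (ell (bT L)))}.ncard : ℝ) := by
    have h3 : {a : Γ | a ∈ A ∧ a - g ∈ img ψ H (bx L)} ⊆
        {a : Γ | a ∈ A ∧ a - g ∈ img ψ H (lat (ell (bT L)))} :=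
      fun a ha => ⟨ha.1, img_mono ψ H (bx_subset L) ha.2⟩
    have h4 := Set.ncard_le_ncard h3 (A.finite_toSet.subset fun a ha => ha.1)
    have h5 : ({a : Γ | a ∈ A ∧ a - g ∈ img ψ H (bx L)}.ncard : ℝ) ≤
        ({a : Γ | a ∈ A ∧ a - g ∈ img ψ H (lat (ell (bT L)))}.ncard : ℝ) := by exact_mod_cast h4
    calc (A.card : ℝ) ≤ M * ({a : Γ | a ∈ A ∧ a - g ∈ img ψ H (bx L)}.ncard : ℝ) := hmeet
      _ ≤ M * ({a : Γ | a ∈ A ∧ a - g ∈ img ψ H (lat (ell (bT L)))}.ncard : ℝ) :=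
          mul_le_mul_of_nonneg_left h5 (by linarith)
      _ = 1 * M * ({a : Γ | a ∈ A ∧ a - g ∈ img ψ H (lat (ell (bT L)))}.ncard : ℝ) := by ring
      _ ≤ _ := by gcongr
  have h6 := conc_of (bT L) ψ H hA hK h1 g h2
  have h7 : (16384 : ℝ) ^ n * (12 ^ n * M) * K = 196608 ^ n * M * K := by
    rw [← mul_assoc, ← mul_pow]
    norm_num
  rwa [h7] at h6

end Q123.VP
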