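import Pool.Agent.Q123.VP.E

/-!
# Homomorphic images
-/

set_option autoImplicit false

namespace Q123.VP

open Finset Pool.Agent.Y806.DF
open scoped Pointwise

variable {n : ℕ} {G Γ : Type*} [AddCommGroup G] [AddCommGroup Γ]

/-- Fibres of a homomorphism on a finite set. -/
theorem fibre [DecidableEq G] [DecidableEq Γ] (φ : G →+ Γ) {A : Finset G} (hA : A.Nonempty) :
    ∃ m : ℕ, 0 < m ∧ A.card ≤ m * (A.image φ).card ∧
      ∀ S : Finset G, (S.image φ).card * m ≤ (S + A).card := by
  obtain ⟨γ, hγ, hmax⟩ := exists_max_image (A.image φ) (fun γ => (A.filter fun a => φ a = γ).card)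
    (hA.image φ)
  refine ⟨(A.filter fun a => φ a = γ).card, ?_, ?_, ?_⟩
  · obtain ⟨a, ha, rfl⟩ := mem_image.1 hγ
    exact card_pos.2 ⟨a, mem_filter.2 ⟨ha, rfl⟩⟩
  · rw [card_eq_sum_card_image φ A, mul_comm, ← smul_eq_mul]
    exact sum_le_card_nsmul _ _ _ fun x hx => hmax x hx
  · intro S
    set A₀ := A.filter fun a => φ a = γ
    have hch : ∀ y ∈ S.image φ, ∃ s ∈ S, φ s = y := fun y hy => mem_image.1 hy
    choose! s hs1 hs2 using hch
    rw [← card_product]
    refine card_le_card_of_injOn (fun p : Γ × G => s p.1 + p.2) ?_ ?_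
    · rintro ⟨y, a⟩ h
      rw [mem_coe, mem_product] at h
      exact add_mem_add (hs1 y h.1) (mem_filter.1 h.2).1
    · rintro ⟨y, a⟩ h ⟨y', a'⟩ h' heq
      rw [mem_coe, mem_product] at h h'
      simp only at h h' heq
      have h1 : φ (s y + a) = y + γ := by rw [map_add, hs2 y h.1, (mem_filter.1 h.2).2]
      have h2 : φ (s y' + a') = y' + γ := by rw [map_add, hs2 y' h'.1, (mem_filter.1 h'.2).2]
      have h3 : y = y' := by
        rw [heq, h2] at h1
        exact (add_right_cancel h1).symm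
      subst h3
      rw [add_left_cancel heq]

/-- Plünnecke's inequality with real numbers. -/
theorem plun [DecidableEq G] {A : Finset G} (hA : A.Nonempty) {K : ℝ}
    (hK : ((A + A).card : ℝ) ≤ K * A.card) (m k : ℕ) :
    ((m • A - k • A).card : ℝ) ≤ K ^ (m + k) * A.card := by
  have hAr : (0 : ℝ) < A.card := by exact_mod_cast hA.card_pos
  have h := pluennecke_ruzsa_inequality_nsmul_sub_nsmul_add hA A m k
  have h1 : ((m • A - k • A).card : ℝ) ≤ (((A + A).card : ℝ) / A.card) ^ (m + k) * A.card := by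
    have := (NNRat.cast_le (K := ℝ)).2 h
    push_cast at this
    exact this
  refine h1.trans (mul_le_mul_of_nonneg_right ?_ hAr.le)
  refine pow_le_pow_left₀ (by positivity) ?_ _
  rw [div_le_iff₀ hAr]
  exact hK

/-- Sums and differences of the image. -/
theorem card_image_add [DecidableEq G] [DecidableEq Γ] (φ : G →+ Γ) {A : Finset G}
    (hA : A.Nonempty) {K : ℝ} (hK : ((A + A).card : ℝ) ≤ K * A.card) :
    ((A.image φ + A.image φ).card : ℝ) ≤ K ^ 3 * (A.image φ).card ∧
    (((A - A).image φ).card : ℝ) ≤ K ^ 3 * (A.image φ).card := by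
  obtain ⟨m, hm, h1, h2⟩ := fibre φ hA
  have hmr : (0 : ℝ) < m := by exact_mod_cast hm
  have hAr : (0 : ℝ) < A.card := by exact_mod_cast hA.card_pos
  have hK0 : 0 ≤ K := by
    have h1 : (A.card : ℝ) ≤ (A + A).card := by
      exact_mod_cast Finset.card_le_card_add_right hA
    nlinarith
  have h1r : (A.card : ℝ) ≤ m * (A.image φ).card := by exact_mod_cast h1
  have key : ∀ S : Finset G, ((S + A).card : ℝ) ≤ K ^ 3 * A.card →
      ((S.image φ).card : ℝ) ≤ K ^ 3 * (A.image φ).card := by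
    intro S hS
    have h3 : ((S.image φ).card : ℝ) * m ≤ (S + A).card := by exact_mod_cast h2 S
    have h4 : ((S.image φ).card : ℝ) * m ≤ (K ^ 3 * (A.image φ).card) * m := by
      calc ((S.image φ).card : ℝ) * m ≤ (S + A).card := h3
        _ ≤ K ^ 3 * A.card := hS
        _ ≤ K ^ 3 * (m * (A.image φ).card) := mul_le_mul_of_nonneg_left h1r (by positivity)
        _ = _ := by ring
    exact le_of_mul_le_mul_right h4 hmr
  constructor
  · rw [← image_add]
    refine key _ ?_
    have h5 := plun hA hK 3 0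
    have e : (3 : ℕ) • A - 0 • A = A + A + A := by
      rw [zero_nsmul, sub_zero, succ_nsmul, two_nsmul]
    rw [e] at h5
    exact h5
  · refine key _ ?_
    have h5 := plun hA hK 2 1
    have e : (2 : ℕ) • A - 1 • A = A - A + A := by
      rw [one_nsmul, two_nsmul, sub_add_eq_add_sub]
    rw [e] at h5
    exact h5

/-- A box twice as large. -/
theorem bx_double (L : Fin n → ℕ) : ∃ E : Finset (Fin n → ℤ), E.card ≤ 2 ^ n ∧
    ∀ x : Fin n → ℤ, (∀ i, |x i| ≤ 2 * L i) → ∃ f ∈ E, ∃ w ∈ bx L, x = f + w := by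
  classical
  refine ⟨Fintype.piFinset fun i => {-(L i : ℤ), (L i : ℤ)}, ?_, ?_⟩
  · rw [Fintype.card_piFinset]
    calc ∏ i, (({-(L i : ℤ), (L i : ℤ)} : Finset ℤ)).card ≤ ∏ _i : Fin n, 2 :=
          prod_le_prod' fun i _ => card_le_two
      _ = 2 ^ n := by simp
  · intro x hx
    refine ⟨fun i => if 0 ≤ x i then (L i : ℤ) else -(L i : ℤ), ?_,
      fun i => x i - if 0 ≤ x i then (L i : ℤ) else -(L i : ℤ), ?_, ?_⟩
    · rw [Fintype.mem_piFinset]
      intro i
      simp only [mem_insert, mem_singleton]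
      split_ifs
      · right; rfl
      · left; rfl
    · intro i
      have h := abs_le.1 (hx i)
      simp only
      split_ifs with h0
      · rw [abs_le]
        constructor <;> linarith [h.1, h.2]
      · rw [abs_le]
        constructor <;> linarith [h.1, h.2]
    · funext i
      show x i = _ + (x i - _)
      ring

theorem img_map (φ : G →+ Γ) (ψ : (Fin n → ℤ) →+ G) (H : AddSubgroup G) (S : Set (Fin n → ℤ)) :
    φ '' img ψ H S = img (φ.comp ψ) (H.map φ) S := by
  ext g
  constructor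
  · rintro ⟨_, ⟨x, hx, h, hh, rfl⟩, rfl⟩
    exact ⟨x, hx, φ h, AddSubgroup.mem_map_of_mem φ hh, map_add φ _ _⟩
  · rintro ⟨x, hx, _, ⟨h, hh, rfl⟩, rfl⟩
    exact ⟨ψ x + h, ⟨x, hx, h, hh, rfl⟩, map_add φ _ _⟩

end Q123.VP
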