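import Pool.Agent.Q123.VP.A

/-!
# Images of ellipsoids in abelian groups: properness comes for free
-/

set_option autoImplicit false

namespace Q123.VP

open Finset Pool.Agent.Y806.DF
open scoped Pointwise

variable {n : ℕ} {Γ : Type*} [AddCommGroup Γ]

/-- The image `ψ(S) + H`. -/
def img (ψ : (Fin n → ℤ) →+ Γ) (H : AddSubgroup Γ) (S : Set (Fin n → ℤ)) : Set Γ :=
  {g | ∃ x ∈ S, ∃ h ∈ H, g = ψ x + h}

theorem img_mono (ψ : (Fin n → ℤ) →+ Γ) (H : AddSubgroup Γ) {S S' : Set (Fin n → ℤ)}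
    (h : S ⊆ S') : img ψ H S ⊆ img ψ H S' := by
  rintro g ⟨x, hx, k, hk, rfl⟩
  exact ⟨x, h hx, k, hk, rfl⟩

theorem img_finite (ψ : (Fin n → ℤ) →+ Γ) (H : AddSubgroup Γ) [Finite H] {S : Set (Fin n → ℤ)}
    (h : S.Finite) : (img ψ H S).Finite := by
  have hH : (H : Set Γ).Finite := Set.toFinite _
  refine ((h.prod hH).image fun p => ψ p.1 + p.2).subset ?_
  rintro g ⟨x, hx, k, hk, rfl⟩
  exact ⟨(x, k), ⟨hx, hk⟩, rfl⟩

variable (T : (Fin n → ℝ) ≃ₗ[ℝ] (Fin n → ℝ)) (ψ : (Fin n → ℤ) →+ Γ) (H : AddSubgroup Γ)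

/-- The cell of the kernel of `ψ` modulo `H`. -/
def kcell : Set (Fin n → ℝ) := cell T (H.comap ψ)

theorem kcell_sym : Sym (kcell T ψ H) := cell_sym T _

/-- The integer points of the cell have the same image as those of the ellipsoid. -/
theorem img_cell : img ψ H (lat (kcell T ψ H)) = img ψ H (lat (ell T)) := by
  refine Set.Subset.antisymm (img_mono ψ H (lat_mono (cell_subset T _))) ?_
  rintro g ⟨x, hx, h, hh, rfl⟩
  obtain ⟨y, hy, hxy⟩ := exists_reduced T (H.comap ψ) hx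
  have h1 : ψ (x - y) ∈ H := hxy
  refine ⟨y, hy, ψ (x - y) + h, H.add_mem h1 hh, ?_⟩
  rw [map_sub]
  abel

/-- Properness of the dilates by a factor at most `1 / 4`. -/
theorem proper {t : ℝ} (ht : 0 ≤ t) (ht4 : t ≤ 1 / 4) :
    Set.InjOn (fun p : (Fin n → ℤ) × Γ => ψ p.1 + p.2) (lat (t • kcell T ψ H) ×ˢ (H : Set Γ)) := by
  rintro ⟨x, h⟩ ⟨hx, hh⟩ ⟨y, k⟩ ⟨hy, hk⟩ heq
  simp only at heq
  have hh' : h ∈ H := hh
  have hk' : k ∈ H := hk
  have h1 : ψ (x - y) = k - h := by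
    rw [map_sub, sub_eq_sub_iff_add_eq_add, heq]
    abel
  have h2 : x = y := by
    refine eq_of_quarter T (H.comap ψ) ht ht4 hx hy ?_
    show ψ (x - y) ∈ H
    rw [h1]
    exact H.sub_mem hk' hh'
  subst h2
  rw [add_right_inj] at heq
  rw [heq]

theorem card_img_proper [Finite H] {t : ℝ} (ht : 0 ≤ t) (ht4 : t ≤ 1 / 4) :
    (img ψ H (lat (t • kcell T ψ H))).ncard = num (kcell T ψ H) t * Nat.card H := by
  have h1 : img ψ H (lat (t • kcell T ψ H)) =
      (fun p : (Fin n → ℤ) × Γ => ψ p.1 + p.2) '' (lat (t • kcell T ψ H) ×ˢ (H : Set Γ)) := by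
    ext g
    constructor
    · rintro ⟨x, hx, h, hh, rfl⟩
      exact ⟨(x, h), ⟨hx, hh⟩, rfl⟩
    · rintro ⟨⟨x, h⟩, ⟨hx, hh⟩, rfl⟩
      exact ⟨x, hx, h, hh, rfl⟩
  rw [h1, Set.ncard_image_of_injOn (proper T ψ H ht ht4), Set.ncard_prod]
  rfl

/-- The number of elements of the image of the ellipsoid. -/
noncomputable def pc : ℕ := (img ψ H (lat (ell T))).ncard

theorem quarter_le [Finite H] : num (kcell T ψ H) (1 / 4) * Nat.card H ≤ pc T ψ H := by
  rw [← card_img_proper T ψ H (by norm_num) le_rfl]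
  refine Set.ncard_le_ncard ?_ (img_finite ψ H (lat_finite (ell_compact T).isBounded))
  refine img_mono ψ H (lat_mono ?_)
  have h1 := (kcell_sym T ψ H).mono (s := 1 / 4) (t := 1) (by norm_num) (by norm_num)
  rw [one_smul] at h1
  exact h1.trans (cell_subset T _)

theorem one_le_quarter [Finite H] : num (kcell T ψ H) 1 * Nat.card H ≤ 16 ^ n * pc T ψ H := by
  have h1 := num_pow (kcell_sym T ψ H) (t := 1 / 4) (by norm_num) 2
  norm_num at h1
  have h2 := quarter_le T ψ H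
  calc num (kcell T ψ H) 1 * Nat.card H ≤ (16 ^ n * num (kcell T ψ H) (1 / 4)) * Nat.card H :=
        Nat.mul_le_mul_right _ h1
    _ = 16 ^ n * (num (kcell T ψ H) (1 / 4) * Nat.card H) := by ring
    _ ≤ 16 ^ n * pc T ψ H := Nat.mul_le_mul_left _ h2

/-- Choice of a proper scale. -/
theorem scale_quarter {r : ℕ} {B : Set (Fin r → ℝ)} (hB : Sym B) {m : ℝ} (hm : 1 ≤ m) :
    ∃ (t : ℝ) (F : Finset (Fin r → ℤ)), 0 < t ∧ t ≤ 1 / 4 ∧ (num B t : ℝ) ≤ m ∧
      (F.card : ℝ) ≤ 1024 ^ r * max 1 (num B 1 / m) ∧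
      ∀ v ∈ lat B, ∃ f ∈ F, ∃ w ∈ lat (t • B), v = f + w := by
  have hsub : lat B ⊆ lat ((2 : ℝ) • B) := by
    refine lat_mono ?_
    have h1 := hB.mono (s := 1) (t := 2) zero_le_one one_le_two
    rwa [one_smul] at h1
  obtain ⟨s, F, hs0, hs1, hF, hcov⟩ := scale hB hm
  by_cases hs : s ≤ 1 / 2
  · refine ⟨s / 2, F, by positivity, by linarith, ?_, hF, fun v hv => hcov v (hsub hv)⟩
    have h1 : num B (s / 2) ≤ num B s := num_mono hB (by positivity) (by linarith)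
    exact le_trans (by exact_mod_cast h1) hs1
  · push Not at hs
    obtain ⟨F', h1, h2⟩ := cover_two hB (t := 1 / 4) (by norm_num) (by norm_num)
    refine ⟨1 / 4, F', by norm_num, le_rfl, ?_, ?_, fun v hv => h2 v (hsub hv)⟩
    · have h3 : num B (1 / 4) ≤ num B s := num_mono hB (by norm_num) (by linarith)
      exact le_trans (by exact_mod_cast h3) hs1
    · have h4 := num_pow hB (t := 1 / 4 / 2) (by norm_num) 3
      norm_num at h4
      have h5 : (0 : ℝ) < num B (1 / 4 / 2) := by exact_mod_cast num_pos hB _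
      have h6 : (num B 1 : ℝ) ≤ 64 ^ r * num B (1 / 4 / 2) := by
        have : ((num B 1 : ℕ) : ℝ) ≤ ((64 ^ r * num B (1 / 4 / 2) : ℕ) : ℝ) := by
          exact_mod_cast (by norm_num at h4 ⊢; exact h4)
        push_cast at this
        exact this
      have h7 : (F'.card : ℝ) * num B (1 / 4 / 2) ≤ 1024 ^ r * num B (1 / 4 / 2) := by
        calc (F'.card : ℝ) * num B (1 / 4 / 2) ≤ 16 ^ r * num B 1 := h1
          _ ≤ 16 ^ r * (64 ^ r * num B (1 / 4 / 2)) := mul_le_mul_of_nonneg_left h6 (by positivity)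
          _ = 1024 ^ r * num B (1 / 4 / 2) := by
            rw [← mul_assoc, ← mul_pow]; norm_num
      have h8 : (F'.card : ℝ) ≤ 1024 ^ r := le_of_mul_le_mul_right h7 h5
      calc (F'.card : ℝ) ≤ 1024 ^ r * 1 := by rw [mul_one]; exact h8
        _ ≤ _ := mul_le_mul_of_nonneg_left (le_max_left _ _) (by positivity)

/-- **Properness for free, ellipsoids.** For every `N ≥ |H|` the image of the integer points of
an ellipsoid is covered by few translates of a proper centred convex coset progression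
of volume at most `N`. -/
theorem ell_cover [Finite H] {N : ℝ} (hN : (Nat.card H : ℝ) ≤ N) :
    ∃ (t : ℝ) (F : Finset (Fin n → ℤ)), 0 < t ∧ t ≤ 1 / 4 ∧
      (num (kcell T ψ H) t : ℝ) * Nat.card H ≤ N ∧
      (F.card : ℝ) ≤ 1024 ^ n * max 1 (16 ^ n * pc T ψ H / N) ∧
      ∀ g ∈ img ψ H (lat (ell T)), ∃ f ∈ F, ∃ w ∈ lat (t • kcell T ψ H), ∃ h ∈ H,
        g = ψ f + ψ w + h := by
  have hHpos : (0 : ℝ) < Nat.card H := by exact_mod_cast Nat.card_pos
  have hNpos : 0 < N := lt_of_lt_of_le hHpos hN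
  have hm : 1 ≤ N / Nat.card H := by rwa [le_div_iff₀ hHpos, one_mul]
  obtain ⟨t, F, h1, h2, h3, h4, h5⟩ := scale_quarter (kcell_sym T ψ H) hm
  refine ⟨t, F, h1, h2, ?_, ?_, ?_⟩
  · rwa [le_div_iff₀ hHpos] at h3
  · refine h4.trans (mul_le_mul_of_nonneg_left (max_le_max le_rfl ?_) (by positivity))
    rw [div_div_eq_mul_div, div_le_div_iff_of_pos_right hNpos]
    exact_mod_cast one_le_quarter T ψ H
  · intro g hg
    rw [← img_cell T ψ H] at hg
    obtain ⟨x, hx, h, hh, rfl⟩ := hg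
    obtain ⟨f, hf, w, hw, rfl⟩ := h5 x hx
    exact ⟨f, hf, w, hw, h, hh, by rw [map_add]⟩

end Q123.VP
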