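import Pool.Agent.Q123.VP.B

/-!
# Sets commensurable with the image of an ellipsoid
-/

set_option autoImplicit false

namespace Q123.VP

open Finset Pool.Agent.Y806.DF
open scoped Pointwise

variable {n : ℕ} {Γ : Type*} [AddCommGroup Γ]

variable (T : (Fin n → ℝ) ≃ₗ[ℝ] (Fin n → ℝ)) (ψ : (Fin n → ℤ) →+ Γ) (H : AddSubgroup Γ)

theorem card_H_le_pc [Finite H] : Nat.card H ≤ pc T ψ H := by
  have h1 : (H : Set Γ) ⊆ img ψ H (lat (ell T)) := by
    intro h hh
    refine ⟨0, ?_, h, hh, by rw [map_zero, zero_add]⟩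
    show re (0 : Fin n → ℤ) ∈ ell T
    have e : re (0 : Fin n → ℤ) = 0 := by
      funext i
      simp [re]
    rw [e]
    exact ell_zero T
  have h2 := Set.ncard_le_ncard h1 (img_finite ψ H (lat_finite (ell_compact T).isBounded))
  rwa [← Nat.card_coe_set_eq] at h2

/-- `A` has a large intersection with a translate of `P = ψ(ell T) + H`, which need not be proper,
and `|P| ≤ M |A|`: the data of the dimension-free theorem. -/
theorem data_of [DecidableEq Γ] [Finite H] {K M : ℝ} {A : Finset Γ} (hA : A.Nonempty)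
    (hK1 : 1 ≤ K) (hP : (pc T ψ H : ℝ) ≤ M * A.card) (g : Γ)
    (hmeet : (A.card : ℝ) ≤ M * ({a : Γ | a ∈ A ∧ a - g ∈ img ψ H (lat (ell T))}.ncard : ℝ)) :
    ∃ (X : Finset (Fin n → ℤ)) (g' : Γ), Data (16384 ^ n * M * K) A X ψ H g' := by
  classical
  set S : Set Γ := {a : Γ | a ∈ A ∧ a - g ∈ img ψ H (lat (ell T))} with hS
  have hSA : S ⊆ A := fun a ha => ha.1
  have hAr : (0 : ℝ) < A.card := by exact_mod_cast hA.card_pos
  have hSle : (S.ncard : ℝ) ≤ A.card := by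
    have := Set.ncard_le_ncard hSA A.finite_toSet
    rw [Set.ncard_coe_finset] at this
    exact_mod_cast this
  have hM1 : 1 ≤ M := by
    by_contra hcon
    push Not at hcon
    have hS0 : (0 : ℝ) ≤ S.ncard := Nat.cast_nonneg _
    rcases le_or_gt M 0 with h | h
    · nlinarith [mul_nonpos_of_nonpos_of_nonneg h hS0]
    · nlinarith [mul_le_mul_of_nonneg_left hSle h.le]
  have hHpos : (0 : ℝ) < Nat.card H := by exact_mod_cast Nat.card_pos
  have hHpc : (Nat.card H : ℝ) ≤ pc T ψ H := by exact_mod_cast card_H_le_pc T ψ H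
  have hpc0 : (0 : ℝ) < pc T ψ H := lt_of_lt_of_le hHpos hHpc
  obtain ⟨t, F, ht0, ht4, hvol, hF, hcov⟩ := ell_cover T ψ H hHpc
  have hB := kcell_sym T ψ H
  have hF' : (F.card : ℝ) ≤ 16384 ^ n := by
    refine hF.trans ?_
    rw [mul_div_assoc, div_self hpc0.ne', mul_one,
      max_eq_right (one_le_pow₀ (by norm_num : (1 : ℝ) ≤ 16)), ← mul_pow]
    norm_num
  have h16 : (1 : ℝ) ≤ 16384 ^ n := one_le_pow₀ (by norm_num)
  have hXf := hB.finite t
  set X := hXf.toFinset with hX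
  have hXn : X.card = num (kcell T ψ H) t := (Set.ncard_eq_toFinset_card _ hXf).symm
  have hXpos : 0 < X.card := by rw [hXn]; exact num_pos hB t
  have hXr : (0 : ℝ) < X.card := by exact_mod_cast hXpos
  have hbig : ∀ x : ℝ, x ≤ 4 ^ n → x ≤ 16384 ^ n * M * K := by
    intro x hx
    have h1 : (4 : ℝ) ^ n ≤ 16384 ^ n := pow_le_pow_left₀ (by norm_num) (by norm_num) n
    calc x ≤ 16384 ^ n * 1 * 1 := by linarith
      _ ≤ 16384 ^ n * M * K := by gcongr
  -- pigeonhole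
  have hcover : S ⊆ ⋃ f ∈ F, {a : Γ | a ∈ A ∧ ∃ x ∈ X, ∃ h ∈ H, a = (g + ψ f) + ψ x + h} := by
    rintro a ⟨haA, hag⟩
    obtain ⟨f, hf, w, hw, h, hh, heq⟩ := hcov _ hag
    simp only [Set.mem_iUnion]
    refine ⟨f, hf, haA, w, ?_, h, hh, ?_⟩
    · rw [hX, Set.Finite.mem_toFinset]
      exact hw
    · have : a = g + (a - g) := by abel
      rw [this, heq]
      abel
  have hpig : ∃ f ∈ F, (S.ncard : ℝ) ≤ 16384 ^ n *
      ({a : Γ | a ∈ A ∧ ∃ x ∈ X, ∃ h ∈ H, a = (g + ψ f) + ψ x + h}.ncard : ℝ) := by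
    by_contra hcon
    push Not at hcon
    have hSpos : (0 : ℝ) < S.ncard := by
      by_contra h
      push Not at h
      nlinarith
    have hfinf : ∀ f : Fin n → ℤ,
        {a : Γ | a ∈ A ∧ ∃ x ∈ X, ∃ h ∈ H, a = (g + ψ f) + ψ x + h}.Finite :=
      fun f => A.finite_toSet.subset fun a ha => ha.1
    have h1 : S.ncard ≤ ∑ f ∈ F,
        {a : Γ | a ∈ A ∧ ∃ x ∈ X, ∃ h ∈ H, a = (g + ψ f) + ψ x + h}.ncard := by
      refine (Set.ncard_le_ncard hcover ?_).trans (Finset.set_ncard_biUnion_le _ _)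
      exact F.finite_toSet.biUnion fun f _ => hfinf f
    have h2 : (S.ncard : ℝ) ≤ ∑ f ∈ F,
        ({a : Γ | a ∈ A ∧ ∃ x ∈ X, ∃ h ∈ H, a = (g + ψ f) + ψ x + h}.ncard : ℝ) := by
      exact_mod_cast h1
    have hFne : F.Nonempty := by
      rw [nonempty_iff_ne_empty]
      rintro rfl
      rw [sum_empty] at h2
      linarith
    have h3 : 16384 ^ n * (S.ncard : ℝ) < F.card * S.ncard := by
      calc 16384 ^ n * (S.ncard : ℝ) ≤ 16384 ^ n * ∑ f ∈ F,
            ({a : Γ | a ∈ A ∧ ∃ x ∈ X, ∃ h ∈ H, a = (g + ψ f) + ψ x + h}.ncard : ℝ) :=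
              mul_le_mul_of_nonneg_left h2 (by positivity)
        _ = ∑ f ∈ F, 16384 ^ n *
            ({a : Γ | a ∈ A ∧ ∃ x ∈ X, ∃ h ∈ H, a = (g + ψ f) + ψ x + h}.ncard : ℝ) := by
              rw [mul_sum]
        _ < ∑ f ∈ F, (S.ncard : ℝ) := sum_lt_sum_of_nonempty hFne hcon
        _ = F.card * S.ncard := by rw [sum_const, nsmul_eq_mul]
    have h4 := mul_le_mul_of_nonneg_right hF' hSpos.le
    linarith
  obtain ⟨f, hf, hpf⟩ := hpig
  refine ⟨X, g + ψ f, ?_⟩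
  constructor
  · exact card_pos.1 hXpos
  · infer_instance
  · -- doubling
    have h1 : ((X + X : Finset (Fin n → ℤ)) : Set (Fin n → ℤ)) ⊆ lat ((2 * t) • kcell T ψ H) := by
      intro z hz
      obtain ⟨a, ha, b, hb, rfl⟩ := mem_add.1 (mem_coe.1 hz)
      rw [hX, Set.Finite.mem_toFinset] at ha hb
      rw [two_mul]
      exact hB.add ht0.le ht0.le ha hb
    have h2 := Set.ncard_le_ncard h1 (hB.finite (2 * t))
    rw [Set.ncard_coe_finset] at h2
    have h3 : (X + X).card ≤ 4 ^ n * X.card := by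
      rw [hXn]
      exact h2.trans (num_double hB ht0.le)
    have h4 : ((X + X).card : ℝ) ≤ 4 ^ n * X.card := by exact_mod_cast h3
    exact h4.trans (mul_le_mul_of_nonneg_right (hbig _ le_rfl) hXr.le)
  · -- density in the hull
    have h1 : hull X ⊆ lat (t • kcell T ψ H) := by
      intro z hz
      have h2 : convexHull ℝ (re '' (X : Set (Fin n → ℤ))) ⊆ t • kcell T ψ H := by
        refine convexHull_min ?_ (hB.conv.smul t)
        rintro _ ⟨x, hx, rfl⟩
        rw [hX, mem_coe, Set.Finite.mem_toFinset] at hx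
        exact hx
      exact h2 hz
    have h2 : (hull X).ncard ≤ X.card := by
      rw [hXn]
      exact Set.ncard_le_ncard h1 (hB.finite t)
    have h3 : ((hull X).ncard : ℝ) ≤ 1 * X.card := by rw [one_mul]; exact_mod_cast h2
    exact h3.trans (mul_le_mul_of_nonneg_right (hbig _ (one_le_pow₀ (by norm_num))) hXr.le)
  · -- size
    calc (X.card : ℝ) * Nat.card H = (num (kcell T ψ H) t : ℝ) * Nat.card H := by rw [hXn]
      _ ≤ pc T ψ H := hvol
      _ ≤ M * A.card := hP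
      _ = 1 * M * 1 * A.card := by ring
      _ ≤ 16384 ^ n * M * K * A.card := by gcongr
  · calc (A.card : ℝ) ≤ M * (S.ncard : ℝ) := hmeet
      _ ≤ M * (16384 ^ n *
        ({a : Γ | a ∈ A ∧ ∃ x ∈ X, ∃ h ∈ H, a = (g + ψ f) + ψ x + h}.ncard : ℝ)) :=
          mul_le_mul_of_nonneg_left hpf (by linarith)
      _ = 16384 ^ n * M * 1 *
        ({a : Γ | a ∈ A ∧ ∃ x ∈ X, ∃ h ∈ H, a = (g + ψ f) + ψ x + h}.ncard : ℝ) := by ring
      _ ≤ _ := by gcongr

/-- The conclusion of the conjecture with the parameter `L`. -/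
def Conc (A : Finset Γ) (L : ℝ) : Prop :=
  ∃ (r : ℕ) (B : Set (Fin r → ℝ)) (θ : (Fin r → ℤ) →+ Γ) (H' : AddSubgroup Γ) (F : Finset Γ),
    (r : ℝ) ≤ 500 * Real.log (2 * L) ∧ Body B ∧ Finite H' ∧
    (lat B).ncard * Nat.card H' ≤ A.card ∧ (F.card : ℝ) ≤ 5000 * L ^ 5000 ∧ Cov B θ H' F A

theorem conc_of [DecidableEq Γ] [Finite H] {K M : ℝ} {A : Finset Γ} (hA : A.Nonempty)
    (hK : ((A + A).card : ℝ) ≤ K * A.card) (hP : (pc T ψ H : ℝ) ≤ M * A.card) (g : Γ)
    (hmeet : (A.card : ℝ) ≤ M * ({a : Γ | a ∈ A ∧ a - g ∈ img ψ H (lat (ell T))}.ncard : ℝ)) :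
    Conc A (16384 ^ n * M * K) := by
  have hAr : (0 : ℝ) < A.card := by exact_mod_cast hA.card_pos
  have hK1 : 1 ≤ K := by
    have h1 : (A.card : ℝ) ≤ (A + A).card := by
      exact_mod_cast Finset.card_le_card_add_right hA
    nlinarith
  obtain ⟨X, g', hD⟩ := data_of T ψ H hA hK1 hP g hmeet
  have hM1 : 1 ≤ M := by
    by_contra hcon
    push Not at hcon
    have hSA : {a : Γ | a ∈ A ∧ a - g ∈ img ψ H (lat (ell T))} ⊆ (A : Set Γ) := fun a ha => ha.1
    have hSle : ({a : Γ | a ∈ A ∧ a - g ∈ img ψ H (lat (ell T))}.ncard : ℝ) ≤ A.card := by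
      have := Set.ncard_le_ncard hSA A.finite_toSet
      rw [Set.ncard_coe_finset] at this
      exact_mod_cast this
    have hS0 : (0 : ℝ) ≤ {a : Γ | a ∈ A ∧ a - g ∈ img ψ H (lat (ell T))}.ncard := Nat.cast_nonneg _
    rcases le_or_gt M 0 with h | h
    · nlinarith [mul_nonpos_of_nonpos_of_nonneg h hS0]
    · nlinarith [mul_le_mul_of_nonneg_left hSle h.le]
  have h16 : (1 : ℝ) ≤ 16384 ^ n := one_le_pow₀ (by norm_num)
  have hKK : K ≤ 16384 ^ n * M * K := by
    calc K = 1 * 1 * K := by ring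
      _ ≤ 16384 ^ n * M * K := by gcongr
  exact main hA (hK.trans (mul_le_mul_of_nonneg_right hKK hAr.le)) hD

end Q123.VP
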