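import Pool.Agent.Q123.VP.C

/-!
# Boxes and ellipsoids
-/

set_option autoImplicit false

namespace Q123.VP

open Finset Pool.Agent.Y806.DF
open scoped Pointwise

variable {n : ℕ}

/-- The integer points of a box. -/
def bx (L : Fin n → ℕ) : Set (Fin n → ℤ) := {x | ∀ i, |x i| ≤ L i}

theorem bx_finite (L : Fin n → ℕ) : (bx L).Finite := by
  have h : bx L ⊆ Set.Icc (fun i => -(L i : ℤ)) (fun i => (L i : ℤ)) := by
    intro x hx
    exact ⟨fun i => (abs_le.1 (hx i)).1, fun i => (abs_le.1 (hx i)).2⟩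
  exact (Set.finite_Icc _ _).subset h

/-- The number of integers `j` with weights `2 ^ (-|j|)`. -/
theorem sum_half (N : ℕ) : ∑ j ∈ Icc (-(N : ℤ)) N, ((1 : ℝ) / 2) ^ j.natAbs ≤ 3 - 2 * (1 / 2) ^ N := by
  induction N with
  | zero => norm_num
  | succ N ih =>
    have h : Icc (-((N + 1 : ℕ) : ℤ)) ((N + 1 : ℕ) : ℤ) =
        insert (-((N + 1 : ℕ) : ℤ)) (insert ((N + 1 : ℕ) : ℤ) (Icc (-(N : ℤ)) N)) := by
      ext j
      simp only [mem_Icc, mem_insert]
      push_cast
      omega
    rw [h, sum_insert, sum_insert]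
    · rw [Int.natAbs_neg, Int.natAbs_natCast, pow_succ]
      linarith
    · simp only [mem_Icc]
      push_cast
      omega
    · simp only [mem_Icc, mem_insert]
      push_cast
      omega

/-- The number of integer points with `ℓ¹` norm at most `m`. -/
theorem card_small (n m : ℕ) :
    (((Fintype.piFinset fun _ : Fin n => Icc (-(m : ℤ)) m).filter
      fun k => ∑ i, (k i).natAbs ≤ m).card : ℝ) ≤ 2 ^ m * 3 ^ n := by
  set S := (Fintype.piFinset fun _ : Fin n => Icc (-(m : ℤ)) m).filter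
      fun k => ∑ i, (k i).natAbs ≤ m with hS
  have h1 : (S.card : ℝ) * (1 / 2) ^ m ≤ ∑ k ∈ S, ∏ i, ((1 : ℝ) / 2) ^ (k i).natAbs := by
    rw [← nsmul_eq_mul]
    refine card_nsmul_le_sum _ _ _ fun k hk => ?_
    rw [prod_pow_eq_pow_sum]
    exact pow_le_pow_of_le_one (by norm_num) (by norm_num) (mem_filter.1 hk).2
  have h2 : ∑ k ∈ S, ∏ i, ((1 : ℝ) / 2) ^ (k i).natAbs ≤
      ∑ k ∈ Fintype.piFinset fun _ : Fin n => Icc (-(m : ℤ)) m, ∏ i, ((1 : ℝ) / 2) ^ (k i).natAbs :=
    sum_le_sum_of_subset_of_nonneg (filter_subset _ _) fun k _ _ =>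
      prod_nonneg fun i _ => by positivity
  have h3 : ∑ k ∈ Fintype.piFinset fun _ : Fin n => Icc (-(m : ℤ)) m,
      ∏ i, ((1 : ℝ) / 2) ^ (k i).natAbs = ∏ _i : Fin n, ∑ j ∈ Icc (-(m : ℤ)) m, ((1 : ℝ) / 2) ^ j.natAbs := by
    rw [prod_univ_sum]
  have h4 : ∏ _i : Fin n, ∑ j ∈ Icc (-(m : ℤ)) m, ((1 : ℝ) / 2) ^ j.natAbs ≤ 3 ^ n := by
    calc ∏ _i : Fin n, ∑ j ∈ Icc (-(m : ℤ)) m, ((1 : ℝ) / 2) ^ j.natAbs ≤ ∏ _i : Fin n, (3 : ℝ) := by
          refine prod_le_prod (fun i _ => sum_nonneg fun j _ => by positivity) fun i _ => ?_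
          refine (sum_half m).trans ?_
          have : (0 : ℝ) ≤ (1 / 2) ^ m := by positivity
          linarith
      _ = 3 ^ n := by rw [prod_const, card_univ, Fintype.card_fin]
  have h5 : (S.card : ℝ) * (1 / 2) ^ m ≤ 3 ^ n := by
    rw [h3] at h2
    exact h1.trans (h2.trans h4)
  have h6 : (2 : ℝ) ^ m * (1 / 2) ^ m = 1 := by
    rw [← mul_pow]
    norm_num
  calc (S.card : ℝ) = 2 ^ m * (S.card * (1 / 2) ^ m) := by
        rw [mul_left_comm, h6, mul_one]
    _ ≤ 2 ^ m * 3 ^ n := mul_le_mul_of_nonneg_left h5 (by positivity)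

/-- The steps of the grid. -/
def stp (L : Fin n → ℕ) (i : Fin n) : ℕ := max (L i) 1

/-- The linear map of the ellipsoid around the box. -/
noncomputable def bT (L : Fin n → ℕ) : (Fin n → ℝ) ≃ₗ[ℝ] (Fin n → ℝ) :=
  LinearEquiv.piCongrRight fun i => LinearEquiv.smulOfNeZero ℝ ℝ ((stp L i * Real.sqrt n : ℝ)⁻¹) (by
    have h1 : (0 : ℝ) < stp L i := by
      have : 0 < stp L i := lt_of_lt_of_le one_pos (le_max_right _ _)
      exact_mod_cast this
    have h2 : (0 : ℝ) < n := by exact_mod_cast i.pos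
    positivity)

theorem bT_apply (L : Fin n → ℕ) (x : Fin n → ℝ) (i : Fin n) :
    bT L x i = (stp L i * Real.sqrt n : ℝ)⁻¹ * x i := rfl

theorem stp_pos (L : Fin n → ℕ) (i : Fin n) : 0 < stp L i := lt_of_lt_of_le one_pos (le_max_right _ _)

/-- The form of the ellipsoid. -/
theorem form_bT (L : Fin n → ℕ) (x : Fin n → ℝ) :
    form (bT L) x x * n = ∑ i, (x i / stp L i) ^ 2 := by
  unfold form
  rw [sum_mul]
  refine sum_congr rfl fun i _ => ?_
  have h1 : (0 : ℝ) < stp L i := by exact_mod_cast stp_pos L i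
  have h2 : (0 : ℝ) < n := by exact_mod_cast i.pos
  have h3 : Real.sqrt n ^ 2 = n := Real.sq_sqrt h2.le
  rw [bT_apply]
  have h4 : Real.sqrt n ≠ 0 := by positivity
  field_simp
  rw [h3]
  ring

theorem bx_subset (L : Fin n → ℕ) : bx L ⊆ lat (ell (bT L)) := by
  intro x hx
  show form (bT L) (re x) (re x) ≤ 1
  rcases Nat.eq_zero_or_pos n with h0 | h0
  · subst h0
    unfold form
    simp
  · have h1 := form_bT L (re x)
    have hn : (0 : ℝ) < n := by exact_mod_cast h0
    have h2 : ∑ i, (re x i / stp L i) ^ 2 ≤ n := by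
      calc ∑ i, (re x i / stp L i) ^ 2 ≤ ∑ _i : Fin n, (1 : ℝ) := by
            refine sum_le_sum fun i _ => ?_
            have h3 : (0 : ℝ) < stp L i := by exact_mod_cast stp_pos L i
            have h4 : |re x i| ≤ stp L i := by
              have h5 : |x i| ≤ (stp L i : ℤ) := (hx i).trans (by
                have : L i ≤ stp L i := le_max_left _ _
                exact_mod_cast this)
              have h6 : ((|x i| : ℤ) : ℝ) ≤ ((stp L i : ℤ) : ℝ) := by exact_mod_cast h5
              rw [Int.cast_abs, Int.cast_natCast] at h6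
              exact h6
            have h5 : |re x i / stp L i| ≤ 1 := by
              rw [abs_div, abs_of_pos h3, div_le_one h3]
              exact h4
            exact (sq_le_one_iff_abs_le_one _).2 h5
        _ = n := by simp
    rw [← h1] at h2
    by_contra hcon
    push Not at hcon
    nlinarith

/-- The `ℓ¹` norm on the ellipsoid. -/
theorem sum_abs_le (L : Fin n → ℕ) {x : Fin n → ℤ} (hx : x ∈ lat (ell (bT L))) :
    ∑ i, |(x i : ℝ) / stp L i| ≤ n := by
  have h1 : form (bT L) (re x) (re x) ≤ 1 := hx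
  have h2 := form_bT L (re x)
  have h3 : ∑ i, (re x i / stp L i) ^ 2 ≤ n := by
    rw [← h2]
    have : (0 : ℝ) ≤ n := Nat.cast_nonneg n
    nlinarith
  have h4 := sq_sum_le_card_mul_sum_sq (s := (univ : Finset (Fin n))) (f := fun i => |re x i / stp L i|)
  simp only [sq_abs, card_univ, Fintype.card_fin] at h4
  have h5 : (∑ i, |re x i / stp L i|) ^ 2 ≤ (n : ℝ) ^ 2 := by
    calc _ ≤ (n : ℝ) * ∑ i, (re x i / stp L i) ^ 2 := h4
      _ ≤ n * n := mul_le_mul_of_nonneg_left h3 (Nat.cast_nonneg n)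
      _ = _ := by ring
  exact abs_le_of_sq_le_sq' h5 (Nat.cast_nonneg n) |>.2

/-- The integer points of the ellipsoid are covered by few translates of the box. -/
theorem ell_subset (L : Fin n → ℕ) : ∃ F : Finset (Fin n → ℤ), F.card ≤ 12 ^ n ∧
    ∀ x ∈ lat (ell (bT L)), ∃ f ∈ F, ∃ w ∈ bx L, x = f + w := by
  classical
  refine ⟨(((Fintype.piFinset fun _ : Fin n => Icc (-((2 * n : ℕ) : ℤ)) (2 * n : ℕ)).filter
      fun k => ∑ i, (k i).natAbs ≤ 2 * n)).image fun k i => k i * stp L i, ?_, ?_⟩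
  · have h1 := card_small n (2 * n)
    have h2 : (2 : ℝ) ^ (2 * n) * 3 ^ n = 12 ^ n := by
      rw [pow_mul, ← mul_pow]
      norm_num
    rw [h2] at h1
    refine card_image_le.trans ?_
    exact_mod_cast h1
  · intro x hx
    set k : Fin n → ℤ := fun i => x i / stp L i with hk
    have hsp : ∀ i, (0 : ℤ) < stp L i := fun i => by exact_mod_cast stp_pos L i
    have hki : ∀ i, ((k i).natAbs : ℝ) ≤ |(x i : ℝ) / stp L i| + 1 := by
      intro i
      have h3 : (0 : ℝ) < stp L i := by exact_mod_cast stp_pos L i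
      have h4 : (k i : ℝ) ≤ (x i : ℝ) / stp L i := by
        rw [le_div_iff₀ h3]
        have := Int.ediv_mul_le (x i) (hsp i).ne'
        exact_mod_cast this
      have h5 : (x i : ℝ) / stp L i < k i + 1 := by
        rw [div_lt_iff₀ h3]
        have := Int.lt_ediv_add_one_mul_self (x i) (hsp i)
        exact_mod_cast this
      rw [Nat.cast_natAbs, Int.cast_abs, abs_le]
      have h6 := neg_abs_le ((x i : ℝ) / stp L i)
      have h7 := le_abs_self ((x i : ℝ) / stp L i)
      constructor <;> linarith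
    have hsum : ∑ i, (k i).natAbs ≤ 2 * n := by
      have h1 : (∑ i, ((k i).natAbs : ℝ)) ≤ 2 * n := by
        calc (∑ i, ((k i).natAbs : ℝ)) ≤ ∑ i, (|(x i : ℝ) / stp L i| + 1) :=
              sum_le_sum fun i _ => hki i
          _ = ∑ i, |(x i : ℝ) / stp L i| + n := by rw [sum_add_distrib]; simp
          _ ≤ 2 * n := by linarith [sum_abs_le L hx]
      exact_mod_cast h1
    refine ⟨fun i => k i * stp L i, ?_, fun i => x i % stp L i, ?_, ?_⟩
    · refine mem_image.2 ⟨k, mem_filter.2 ⟨?_, hsum⟩, rfl⟩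
      rw [Fintype.mem_piFinset]
      intro i
      have h1 : (k i).natAbs ≤ 2 * n :=
        (single_le_sum (f := fun i => (k i).natAbs) (fun _ _ => Nat.zero_le _) (mem_univ i)).trans hsum
      rw [mem_Icc]
      omega
    · intro i
      have h1 := Int.emod_nonneg (x i) (hsp i).ne'
      have h2 := Int.emod_lt_of_pos (x i) (hsp i)
      rw [abs_of_nonneg h1]
      have h3 : (stp L i : ℤ) ≤ L i + 1 := by
        have : stp L i ≤ L i + 1 := max_le (Nat.le_succ _) (Nat.le_add_left _ _)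
        exact_mod_cast this
      linarith
    · funext i
      show x i = k i * stp L i + x i % stp L i
      rw [hk]
      exact (Int.mul_comm _ _ ▸ (Int.mul_ediv_add_emod (x i) (stp L i)).symm)

end Q123.VP
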